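import Mathlib

set_option linter.unusedSectionVars false

namespace Pool.Agent.Results.MP_768068_al.NonNilpotentRadical

universe u v

/-! ### The notions of the problem, for a not necessarily associative or unital algebra -/

section Notions

variable (Φ : Type u) {A : Type v} [CommRing Φ] [NonUnitalNonAssocRing A] [Module Φ A]

/-- `I` is a two-sided ideal of the Φ-algebra `A`. -/
def IsTwoSided (I : Submodule Φ A) : Prop := ∀ x ∈ I, ∀ a : A, a * x ∈ I ∧ x * a ∈ I

/-- `IsProd S n z`: the element `z` is a product of `n` elements of `S`, for some arrangement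
of parentheses. -/
inductive IsProd (S : Set A) : ℕ → A → Prop
  | elem {x : A} (hx : x ∈ S) : IsProd S 1 x
  | mul {m n : ℕ} {x y : A} (hx : IsProd S m x) (hy : IsProd S n y) : IsProd S (m + n) (x * y)

/-- there is `n ≥ 1` such that all products of `n` elements of `S` vanish. -/
def NilpotentSet (S : Set A) : Prop := ∃ n : ℕ, 0 < n ∧ ∀ z, IsProd S n z → z = 0

/-- every Φ-subalgebra generated by finitely many elements of `I` is nilpotent. -/
def LocallyNilpotent [IsScalarTower Φ A A] [SMulCommClass Φ A A] (I : Submodule Φ A) : Prop :=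
  ∀ s : Finset A, (∀ x ∈ s, x ∈ I) →
    NilpotentSet (NonUnitalAlgebra.adjoin Φ (s : Set A) : Set A)

/-- `L` is the largest locally nilpotent two-sided ideal of `A`. -/
def IsLocallyNilpotentRadical [IsScalarTower Φ A A] [SMulCommClass Φ A A]
    (L : Submodule Φ A) : Prop :=
  IsTwoSided Φ L ∧ LocallyNilpotent Φ L ∧
    ∀ I : Submodule Φ A, IsTwoSided Φ I → LocallyNilpotent Φ I → I ≤ L

variable (A) in
/-- ascending chain condition on two-sided ideals. -/
def WeaklyNoetherian : Prop :=
  ∀ I : ℕ → Submodule Φ A, (∀ n, IsTwoSided Φ (I n)) → (∀ n, I n ≤ I (n + 1)) →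
    ∃ N, ∀ n, N ≤ n → I n = I N

variable (A) in
/-- the algebra has the ascending chain condition on two-sided ideals and its locally nilpotent
radical is not nilpotent. -/
def IsCounterexample [IsScalarTower Φ A A] [SMulCommClass Φ A A] : Prop :=
  WeaklyNoetherian Φ A ∧
    ∃ L : Submodule Φ A, IsLocallyNilpotentRadical Φ L ∧ ¬ NilpotentSet (L : Set A)

end Notions

section Operators

open Classical

/-- infinite digit sequences, the k-th digit being one of 0, ..., k+1 -/
abbrev Seq := ∀ k : ℕ, Fin (k + 2)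

/-- the first n digits -/
abbrev Dig (n : ℕ) := ∀ k : Fin n, Fin ((k : ℕ) + 2)

/-- replace the first n digits of x by q and subtract a from all the other digits -/
def glue (n : ℕ) (q : Dig n) (a : ℕ) (x : Seq) : Seq := fun k =>
  if h : k < n then q ⟨k, h⟩ else ⟨(x k : ℕ) - a, lt_of_le_of_lt (Nat.sub_le _ _) (x k).isLt⟩

lemma glue_lt {n : ℕ} (q : Dig n) (a : ℕ) (x : Seq) (k : Fin n) : glue n q a x k = q k := by
  simp [glue]

lemma glue_ge {n : ℕ} (q : Dig n) (a : ℕ) (x : Seq) {k : ℕ} (h : n ≤ k) :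
    ((glue n q a x k : Fin (k+2)) : ℕ) = (x k : ℕ) - a := by
  have : ¬ k < n := by omega
  simp [glue, this]

/-- x begins with p and all its digits from place n on are at least a -/
def Ok (n : ℕ) (p : Dig n) (a : ℕ) (x : Seq) : Prop :=
  (∀ k : Fin n, x k = p k) ∧ ∀ k, n ≤ k → a ≤ (x k : ℕ)

/-- the partial shift operator -/
noncomputable def P (F : Type*) [Field F] (n : ℕ) (p q : Dig n) (a : ℕ) :
    Module.End F (Seq → F) where
  toFun f := fun x => if Ok n p a x then f (glue n q a x) else 0
  map_add' f g := by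
    ext x; simp only [Pi.add_apply]; split_ifs <;> simp
  map_smul' c f := by
    ext x; simp only [Pi.smul_apply, RingHom.id_apply]; split_ifs <;> simp

variable {F : Type*} [Field F]

lemma P_apply (n : ℕ) (p q : Dig n) (a : ℕ) (f : Seq → F) (x : Seq) :
    P F n p q a f x = if Ok n p a x then f (glue n q a x) else 0 := rfl

lemma P_mul (n : ℕ) (p q q' r : Dig n) (a b : ℕ) :
    P F n p q a * P F n q' r b = if q = q' then P F n p r (a + b) else 0 := by
  apply LinearMap.ext; intro f; funext x
  rw [Module.End.mul_apply, P_apply, P_apply]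
  by_cases hq : q = q'
  · subst hq
    rw [if_pos rfl, P_apply]
    have h1 : glue n r b (glue n q a x) = glue n r (a + b) x := by
      funext k
      by_cases hk : k < n
      · simp [glue, hk]
      · simp only [glue, hk, dif_neg, not_false_eq_true]
        apply Fin.ext
        simp only
        omega
    have h2 : (Ok n p a x ∧ Ok n q b (glue n q a x)) ↔ Ok n p (a + b) x := by
      constructor
      · rintro ⟨⟨h1, h2⟩, ⟨h3, h4⟩⟩
        refine ⟨h1, fun k hk => ?_⟩
        have := h4 k hk
        rw [glue_ge q a x hk] at this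
        have := h2 k hk
        omega
      · rintro ⟨h1, h2⟩
        refine ⟨⟨h1, fun k hk => by have := h2 k hk; omega⟩, ⟨fun k => glue_lt q a x k, fun k hk => ?_⟩⟩
        rw [glue_ge q a x hk]
        have := h2 k hk
        omega
    rw [h1]
    by_cases h3 : Ok n p a x <;> by_cases h4 : Ok n q b (glue n q a x)
    · rw [if_pos h3, if_pos h4, if_pos (h2.1 ⟨h3, h4⟩)]
    · rw [if_pos h3, if_neg h4, if_neg (fun h => h4 (h2.2 h).2)]
    · rw [if_neg h3, if_neg (fun h => h3 (h2.2 h).1)]
    · rw [if_neg h3, if_neg (fun h => h3 (h2.2 h).1)]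
  · rw [if_neg hq]
    have : ¬ Ok n q' b (glue n q a x) := by
      rintro ⟨h1, _⟩
      apply hq
      funext k
      rw [← h1 k, glue_lt]
    rw [if_neg this]
    simp

lemma P_zero_eq_one (p q : Dig 0) : P F 0 p q 0 = 1 := by
  apply LinearMap.ext; intro f; funext x
  rw [P_apply, if_pos ⟨fun k => k.elim0, fun k _ => Nat.zero_le _⟩]
  simp only [Module.End.one_apply]
  congr 1

lemma P_eq_zero {n : ℕ} (p q : Dig n) {a : ℕ} (h : n + 2 ≤ a) : P F n p q a = 0 := by
  apply LinearMap.ext; intro f; funext x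
  rw [P_apply, if_neg]
  · simp
  · rintro ⟨_, h2⟩
    have := h2 n le_rfl
    have := (x n).isLt
    omega

/-- extend a string of digits by one more digit -/
abbrev ext {n : ℕ} (p : Dig n) (s : Fin (n + 2)) : Dig (n + 1) :=
  Fin.snoc (α := fun k : Fin (n + 1) => Fin ((k : ℕ) + 2)) p s

/-- s - a in Fin -/
def sub' {n : ℕ} (s : Fin n) (a : ℕ) : Fin n := ⟨(s : ℕ) - a, lt_of_le_of_lt (Nat.sub_le _ _) s.isLt⟩

lemma Ok_succ {n : ℕ} (p : Dig n) (s : Fin (n + 2)) (a : ℕ) (has : a ≤ (s : ℕ)) (x : Seq) :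
    Ok (n + 1) (ext p s) a x ↔ Ok n p a x ∧ x n = s := by
  constructor
  · rintro ⟨h1, h2⟩
    have h3 : x n = s := by
      have := h1 (Fin.last n)
      simpa [ext] using this
    refine ⟨⟨fun k => ?_, fun k hk => ?_⟩, h3⟩
    · have := h1 k.castSucc
      rw [ext, Fin.snoc_castSucc] at this
      exact this
    · rcases Nat.eq_or_lt_of_le hk with h | h
      · subst h; rw [h3]; exact has
      · exact h2 k h
  · rintro ⟨⟨h1, h2⟩, h3⟩
    refine ⟨fun k => ?_, fun k hk => h2 k (by omega)⟩
    refine Fin.lastCases ?_ (fun i => ?_) k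
    · rw [ext, Fin.snoc_last]; exact h3
    · rw [ext, Fin.snoc_castSucc]; exact h1 i

lemma glue_succ {n : ℕ} (q : Dig n) (a : ℕ) (x : Seq) :
    glue (n + 1) (ext q (sub' (x n) a)) a x = glue n q a x := by
  funext k
  by_cases hk : k < n
  · have hk' : k < n + 1 := by omega
    simp only [glue, hk, hk', dif_pos]
    exact Fin.snoc_castSucc (α := fun k : Fin (n + 1) => Fin ((k : ℕ) + 2)) _ q ⟨k, hk⟩
  · by_cases hk2 : k < n + 1
    · have h3 : k = n := by omega
      subst h3
      simp only [glue, hk2, dif_pos, lt_irrefl, dif_neg, not_false_eq_true]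
      exact Fin.snoc_last (α := fun j : Fin (k + 1) => Fin ((j : ℕ) + 2)) (sub' (x k) a) q
    · simp only [glue, hk, hk2, dif_neg, not_false_eq_true]

lemma P_succ (n : ℕ) (p q : Dig n) (a : ℕ) :
    P F n p q a = ∑ s : Fin (n + 2),
      if a ≤ (s : ℕ) then P F (n + 1) (ext p s) (ext q (sub' s a)) a else 0 := by
  apply LinearMap.ext; intro f; funext x
  rw [LinearMap.sum_apply, Finset.sum_apply, Finset.sum_eq_single (x n)]
  · by_cases h : a ≤ ((x n : Fin (n+2)) : ℕ)
    · rw [if_pos h, P_apply, P_apply, glue_succ]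
      congr 1
      rw [Ok_succ _ _ _ h]
      simp
    · rw [if_neg h, P_apply, if_neg]
      · simp
      · rintro ⟨_, h2⟩; exact h (h2 n le_rfl)
  · intro s _ hs
    by_cases h : a ≤ (s : ℕ)
    · rw [if_pos h, P_apply, if_neg]
      rw [Ok_succ _ _ _ h]
      rintro ⟨_, h2⟩
      exact hs h2.symm
    · rw [if_neg h]; simp
  · intro h; exact absurd (Finset.mem_univ _) h

/-- the span of the operators `P n p q a` with `a ≥ c` -/
def S (F : Type*) [Field F] (n c : ℕ) : Submodule F (Module.End F (Seq → F)) :=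
  Submodule.span F {T | ∃ (p q : Dig n) (a : ℕ), c ≤ a ∧ T = P F n p q a}

lemma P_mem {n c : ℕ} (p q : Dig n) {a : ℕ} (h : c ≤ a) : P F n p q a ∈ S F n c :=
  Submodule.subset_span ⟨p, q, a, h, rfl⟩

lemma S_succ (n c : ℕ) : S F n c ≤ S F (n + 1) c := by
  refine Submodule.span_le.2 ?_
  rintro _ ⟨p, q, a, h, rfl⟩
  rw [P_succ]
  refine Submodule.sum_mem _ fun s _ => ?_
  split_ifs
  · exact P_mem _ _ h
  · exact Submodule.zero_mem _

lemma S_le {n m : ℕ} (h : n ≤ m) (c : ℕ) : S F n c ≤ S F m c := by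
  induction h with
  | refl => exact le_rfl
  | step _ ih => exact ih.trans (S_succ _ _)

lemma S_anti {n c d : ℕ} (h : c ≤ d) : S F n d ≤ S F n c := by
  refine Submodule.span_le.2 ?_
  rintro _ ⟨p, q, a, h', rfl⟩
  exact P_mem _ _ (h.trans h')

lemma S_mul {n c d : ℕ} {x y : Module.End F (Seq → F)} (hx : x ∈ S F n c) (hy : y ∈ S F n d) :
    x * y ∈ S F n (c + d) := by
  induction hx using Submodule.span_induction with
  | mem x hx =>
    obtain ⟨p, q, a, ha, rfl⟩ := hx
    induction hy using Submodule.span_induction with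
    | mem y hy =>
      obtain ⟨q', r, b, hb, rfl⟩ := hy
      rw [P_mul]
      split_ifs
      · exact P_mem _ _ (by omega)
      · exact Submodule.zero_mem _
    | zero => simp
    | add y z _ _ h1 h2 => rw [mul_add]; exact Submodule.add_mem _ h1 h2
    | smul c y _ h => rw [mul_smul_comm]; exact Submodule.smul_mem _ _ h
  | zero => simp
  | add y z _ _ h1 h2 => rw [add_mul]; exact Submodule.add_mem _ h1 h2
  | smul c y _ h => rw [smul_mul_assoc]; exact Submodule.smul_mem _ _ h

lemma one_mem_S (n : ℕ) : (1 : Module.End F (Seq → F)) ∈ S F n 0 := by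
  refine S_le (Nat.zero_le n) 0 ?_
  rw [← P_zero_eq_one (fun k => k.elim0) (fun k => k.elim0)]
  exact P_mem _ _ le_rfl

lemma S_eq_bot {n c : ℕ} (h : n + 2 ≤ c) : S F n c = ⊥ := by
  rw [eq_bot_iff]
  refine Submodule.span_le.2 ?_
  rintro _ ⟨p, q, a, h', rfl⟩
  rw [P_eq_zero _ _ (h.trans h')]
  exact Submodule.zero_mem _

/-- test sequence -/
def pt (n : ℕ) (p : Dig n) (b : ℕ) : Seq := fun k =>
  if h : k < n then p ⟨k, h⟩ else ⟨min b (k + 1), by omega⟩

/-- coefficient extraction -/
noncomputable def coef (n : ℕ) (p q : Dig n) (b : ℕ) : Module.End F (Seq → F) →ₗ[F] F where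
  toFun T := T (Pi.single (pt n q 0) 1) (pt n p b)
  map_add' T T' := by simp
  map_smul' c T := by simp

lemma coef_P (n : ℕ) (p q p' q' : Dig n) (b : Fin (n + 2)) (b' : ℕ) :
    coef n p q b (P F n p' q' b') = if p' = p ∧ q' = q ∧ b' = b then 1 else 0 := by
  change P F n p' q' b' (Pi.single (pt n q 0) 1) (pt n p b) = _
  rw [P_apply]
  have e1 : Ok n p' b' (pt n p b) ↔ p' = p ∧ b' ≤ (b : ℕ) := by
    constructor
    · rintro ⟨h1, h2⟩
      refine ⟨?_, ?_⟩
      · funext k; rw [← h1 k]; simp [pt]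
      · have := h2 n le_rfl
        simp [pt] at this
        exact this.1
    · rintro ⟨rfl, h⟩
      refine ⟨fun k => by simp [pt], fun k hk => ?_⟩
      have h1 : ¬ k < n := by omega
      have := b.isLt
      simp only [pt, h1, dif_neg, not_false_eq_true]
      omega
  by_cases h1 : p' = p ∧ b' ≤ (b : ℕ)
  · rw [if_pos (e1.2 h1)]
    obtain ⟨rfl, h1⟩ := h1
    by_cases h2 : q' = q ∧ b' = b
    · obtain ⟨rfl, rfl⟩ := h2
      rw [if_pos ⟨rfl, rfl, rfl⟩]
      have : glue n q' b (pt n p' b) = pt n q' 0 := by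
        funext k
        by_cases hk : k < n
        · simp [glue, pt, hk]
        · apply Fin.ext
          simp [glue, pt, hk]
      rw [this, Pi.single_eq_same]
    · rw [if_neg (by rintro ⟨_, h3, h4⟩; exact h2 ⟨h3, h4⟩)]
      apply Pi.single_eq_of_ne
      intro h
      apply h2
      constructor
      · funext k
        have := congrFun h k
        rw [glue_lt] at this
        rw [this]
        simp [pt]
      · have h3 := congrArg Fin.val (congrFun h n)
        have := b.isLt
        simp [glue, pt] at h3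
        omega
  · rw [if_neg (fun h => h1 (e1.1 h)), if_neg]
    rintro ⟨h2, _, h3⟩
    exact h1 ⟨h2, h3.le⟩

lemma expand {n : ℕ} {T : Module.End F (Seq → F)} (hT : T ∈ S F n 0) :
    T = ∑ i : Dig n × Dig n × Fin (n + 2),
      coef n i.1 i.2.1 i.2.2 T • P F n i.1 i.2.1 i.2.2 := by
  induction hT using Submodule.span_induction with
  | mem x hx =>
    obtain ⟨p, q, a, _, rfl⟩ := hx
    by_cases ha : a < n + 2
    · rw [Finset.sum_eq_single (p, q, ⟨a, ha⟩)]
      · have h := coef_P (F := F) n p q p q ⟨a, ha⟩ a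
        rw [if_pos ⟨rfl, rfl, rfl⟩] at h
        change P F n p q a = coef n p q a (P F n p q a) • P F n p q a
        rw [show coef n p q a (P F n p q a) = 1 from h, one_smul]
      · rintro ⟨p', q', b⟩ _ h
        simp only [coef_P]
        rw [if_neg, zero_smul]
        rintro ⟨rfl, rfl, h3⟩
        apply h
        simp [h3]
      · intro h; exact absurd (Finset.mem_univ _) h
    · rw [P_eq_zero _ _ (by omega)]
      simp
  | zero => simp
  | add y z _ _ h1 h2 =>
    simp only [map_add, add_smul, Finset.sum_add_distrib]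
    rw [← h1, ← h2]
  | smul c y _ h =>
    simp only [map_smul, smul_eq_mul, mul_smul]
    rw [← Finset.smul_sum, ← h]

lemma ext_inj {n : ℕ} (p p' : Dig n) (s s' : Fin (n + 2)) :
    ext p s = ext p' s' ↔ p = p' ∧ s = s' := by
  constructor
  · intro h
    have := Fin.snoc_injective2 h
    exact this
  · rintro ⟨rfl, rfl⟩; rfl

lemma sandwich_P {n : ℕ} (p q p' q' : Dig n) (b : Fin (n + 2)) (b' : ℕ) :
    P F (n + 1) (ext q 0) (ext p b) 0 * P F n p' q' b' * P F (n + 1) (ext q 0) (ext p b) 0 =
      coef n p q b (P F n p' q' b') • P F (n + 1) (ext q 0) (ext p b) b := by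
  rw [coef_P, P_succ n p' q' b', Finset.mul_sum, Finset.sum_mul, Finset.sum_eq_single b]
  · split_ifs with h1 h2 h2
    · obtain ⟨rfl, rfl, rfl⟩ := h2
      rw [P_mul, if_pos rfl, P_mul, if_pos]
      · simp
      · rw [ext_inj]
        refine ⟨rfl, ?_⟩
        apply Fin.ext
        simp [sub']
    · rw [P_mul]
      split_ifs with h3
      · rw [P_mul]
        split_ifs with h4
        · exfalso
          apply h2
          rw [ext_inj] at h3 h4
          refine ⟨h3.1.symm, h4.1, ?_⟩
          have := congrArg Fin.val h4.2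
          simp [sub'] at this
          omega
        · simp
      · simp
    · exfalso
      apply h1
      rw [h2.2.2]
    · simp
  · intro s _ hs
    split_ifs with h1
    · rw [P_mul, if_neg]
      · simp
      · rw [ext_inj]
        rintro ⟨_, h3⟩
        exact hs h3.symm
    · simp
  · intro h; exact absurd (Finset.mem_univ _) h

lemma sandwich {n : ℕ} (p q : Dig n) (b : Fin (n + 2)) {T : Module.End F (Seq → F)}
    (hT : T ∈ S F n 0) :
    P F (n + 1) (ext q 0) (ext p b) 0 * T * P F (n + 1) (ext q 0) (ext p b) 0 =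
      coef n p q b T • P F (n + 1) (ext q 0) (ext p b) b := by
  induction hT using Submodule.span_induction with
  | mem x hx =>
    obtain ⟨p', q', a, _, rfl⟩ := hx
    exact sandwich_P _ _ _ _ _ _
  | zero => simp
  | add y z _ _ h1 h2 => rw [mul_add, add_mul, h1, h2, map_add, add_smul]
  | smul c y _ h => rw [mul_smul_comm, smul_mul_assoc, h, map_smul, smul_assoc]

/-- the algebra: union of all stages -/
def Sub (F : Type*) [Field F] : Subalgebra F (Module.End F (Seq → F)) where
  carrier := {T | ∃ n, T ∈ S F n 0}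
  mul_mem' := by
    rintro x y ⟨n, hn⟩ ⟨m, hm⟩
    refine ⟨max n m, ?_⟩
    have := S_mul (S_le (le_max_left n m) 0 hn) (S_le (le_max_right n m) 0 hm)
    simpa using this
  add_mem' := by
    rintro x y ⟨n, hn⟩ ⟨m, hm⟩
    exact ⟨max n m, Submodule.add_mem _ (S_le (le_max_left n m) 0 hn) (S_le (le_max_right n m) 0 hm)⟩
  algebraMap_mem' r := by
    refine ⟨0, ?_⟩
    rw [Algebra.algebraMap_eq_smul_one]
    exact Submodule.smul_mem _ _ (one_mem_S 0)

/-- the algebra as a type -/
def Alg (F : Type*) [Field F] : Type _ := Sub F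

instance : Ring (Alg F) := inferInstanceAs (Ring (Sub F))

variable {Φ : Type*} [CommRing Φ] [Algebra Φ F]

instance : Algebra Φ (Alg F) := Subalgebra.algebra' (Sub F)

instance : IsScalarTower Φ F (Alg F) := ⟨fun a b c => Subtype.ext (smul_assoc a b c.1)⟩

/-- the inclusion into the endomorphism ring -/
def val (F : Type*) [Field F] : Alg F →+* Module.End F (Seq → F) := (Sub F).subtype

lemma val_sum {ι : Type*} (s : Finset ι) (f : ι → Alg F) : (∑ i ∈ s, f i).1 = ∑ i ∈ s, (f i).1 :=
  map_sum (val F) f s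


/-- the operators `P n u v a` as elements of the algebra -/
noncomputable def E (F : Type*) [Field F] (n : ℕ) (u v : Dig n) (a : ℕ) : Alg F :=
  ⟨P F n u v a, n, P_mem _ _ (Nat.zero_le _)⟩

lemma E_mul (n : ℕ) (p q q' r : Dig n) (a b : ℕ) :
    E F n p q a * E F n q' r b = if q = q' then E F n p r (a + b) else 0 := by
  apply Subtype.ext
  change P F n p q a * P F n q' r b = _
  rw [P_mul]
  split_ifs <;> rfl

/-- the a-th ideal of the algebra -/
def Lvl (Φ F : Type*) [Field F] [CommRing Φ] [Algebra Φ F] (a : ℕ) : Submodule Φ (Alg F) where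
  carrier := {T | ∃ n, T.1 ∈ S F n a}
  add_mem' := by
    rintro x y ⟨n, hn⟩ ⟨m, hm⟩
    exact ⟨max n m, Submodule.add_mem _ (S_le (le_max_left n m) a hn) (S_le (le_max_right n m) a hm)⟩
  zero_mem' := ⟨0, Submodule.zero_mem _⟩
  smul_mem' := by
    rintro c x ⟨n, hn⟩
    refine ⟨n, ?_⟩
    have : (c • x : Alg F).1 = (algebraMap Φ F c) • x.1 := by
      rw [algebraMap_smul]; rfl
    rw [this]
    exact Submodule.smul_mem _ _ hn

lemma fsmul_mem (hs : Function.Surjective (algebraMap Φ F)) (I : Submodule Φ (Alg F)) (c : F)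
    {x : Alg F} (hx : x ∈ I) : c • x ∈ I := by
  obtain ⟨φ, rfl⟩ := hs c
  rw [algebraMap_smul]
  exact I.smul_mem _ hx

section Classify

variable (I : Submodule Φ (Alg F)) (hU : ∀ x ∈ I, ∀ a : Alg F, a * x * a ∈ I)

include hU in
lemma hU2 {x : Alg F} (hx : x ∈ I) (a b : Alg F) : a * x * b + b * x * a ∈ I := by
  have h := sub_mem (sub_mem (hU x hx (a + b)) (hU x hx a)) (hU x hx b)
  have e : (a + b) * x * (a + b) - a * x * a - b * x * b = a * x * b + b * x * a := by
    noncomm_ring
  rwa [e] at h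

include hU in
lemma step1a {n b : ℕ} {v u : Dig n} (h : E F n v u b ∈ I) (r s : Dig n) (hn : ¬ (s = v ∧ u = r)) :
    E F n r s b ∈ I := by
  have := hU2 I hU h (E F n r v 0) (E F n u s 0)
  rw [E_mul, if_pos rfl, E_mul, if_pos rfl, E_mul] at this
  by_cases h1 : s = v
  · have h2 : ¬ u = r := fun h2 => hn ⟨h1, h2⟩
    rw [if_pos h1, E_mul, if_neg h2, add_zero] at this
    simpa using this
  · rw [if_neg h1, zero_mul, add_zero] at this
    simpa using this

include hU in
lemma step1 {n b : ℕ} {v u : Dig n} (h : E F n v u b ∈ I) (r s : Dig n) :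
    E F n r s b ∈ I := by
  by_cases hn : s = v ∧ u = r
  · obtain ⟨rfl, rfl⟩ := hn
    by_cases huv : u = s
    · subst huv; exact h
    · have h2 := step1a I hU h s s (fun h => huv h.2)
      exact step1a I hU h2 u s (fun h => huv h.2.symm)
  · exact step1a I hU h r s hn

lemma coe_E (n : ℕ) (u v : Dig n) (a : ℕ) :
    (E F n u v a).1 = P F n u v a := rfl

include hU in
lemma sandwich_mem {n : ℕ} (p q : Dig n) (b : Fin (n + 2)) {T : Alg F}
    (hT : T.1 ∈ S F n 0) (hI : T ∈ I) :
    coef n p q b T.1 • E F (n + 1) (ext q 0) (ext p b) b ∈ I := by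
  have h := hU T hI (E F (n + 1) (ext q 0) (ext p b) 0)
  have e : E F (n + 1) (ext q 0) (ext p b) 0 * T * E F (n + 1) (ext q 0) (ext p b) 0 =
      coef n p q b T.1 • E F (n + 1) (ext q 0) (ext p b) b := by
    apply Subtype.ext
    exact sandwich p q b hT
  rwa [e] at h

include hU in
lemma step2 {n b : ℕ} (hb : b < n + 2) (h : ∀ r s : Dig n, E F n r s b ∈ I) (r s : Dig (n + 1)) :
    E F (n + 1) r s b ∈ I := by
  have h1 := sandwich_mem I hU (fun _ => 0) (fun _ => 0) ⟨b, hb⟩
    (P_mem (fun _ => 0) (fun _ => 0) (Nat.zero_le b)) (h (fun _ => 0) (fun _ => 0))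
  have h2 := coef_P (F := F) n (fun _ => 0) (fun _ => 0) (fun _ => 0) (fun _ => 0) ⟨b, hb⟩ b
  rw [if_pos ⟨rfl, rfl, rfl⟩] at h2
  rw [coe_E, h2, one_smul] at h1
  exact step1 I hU h1 r s

lemma step3 {n b : ℕ} (h : ∀ r s : Dig (n + 1), E F (n + 1) r s b ∈ I) (r s : Dig n) :
    E F n r s b ∈ I := by
  have e : E F n r s b = ∑ t : Fin (n + 2),
      if b ≤ (t : ℕ) then E F (n + 1) (ext r t) (ext s (sub' t b)) b else 0 := by
    apply Subtype.ext
    rw [coe_E, P_succ, val_sum]
    refine Finset.sum_congr rfl fun t _ => ?_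
    split_ifs <;> rfl
  rw [e]
  refine Submodule.sum_mem _ fun t _ => ?_
  split_ifs
  · exact h _ _
  · exact Submodule.zero_mem _

/-- the ideal contains all `P n u v b` -/
def Full (b : ℕ) : Prop := ∀ (n : ℕ) (u v : Dig n), E F n u v b ∈ I

include hU in
lemma full_of_mem {n b : ℕ} (hb : b < n + 2) {v u : Dig n} (h : E F n v u b ∈ I) : Full I b := by
  have h1 := step1 I hU h
  have up : ∀ k : ℕ, ∀ r s : Dig (n + k), E F (n + k) r s b ∈ I := by
    intro k
    induction k with
    | zero => exact h1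
    | succ k ih => exact step2 I hU (show b < n + k + 2 by omega) ih
  have down : ∀ k m : ℕ, (∀ r s : Dig (m + k), E F (m + k) r s b ∈ I) → ∀ r s : Dig m, E F m r s b ∈ I := by
    intro k
    induction k with
    | zero => intro m h; exact h
    | succ k ih => intro m h; exact ih m (step3 I h)
  intro m r s
  have := up m
  rw [add_comm] at this
  exact down n m this r s

include hU in
lemma full_of_coef (hs : Function.Surjective (algebraMap Φ F)) {n : ℕ} (p q : Dig n) (b : Fin (n + 2))
    {T : Alg F} (hT : T.1 ∈ S F n 0) (hI : T ∈ I)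
    (hc : coef n p q b T.1 ≠ 0) : Full I b := by
  have h1 := sandwich_mem I hU p q b hT hI
  have h2 := fsmul_mem hs I (coef n p q b T.1)⁻¹ h1
  rw [smul_smul, inv_mul_cancel₀ hc, one_smul] at h2
  exact full_of_mem I hU (by have := b.isLt; omega) h2

include hU in
lemma full_succ {b : ℕ} (h : Full I b) : Full I (b + 1) := by
  let u : Dig (b + 1) := fun _ => 0
  let v : Dig (b + 1) := fun _ => 1
  have huv : ¬ v = u := by
    intro h
    have := congrArg Fin.val (congrFun h 0)
    simp [u, v] at this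
  have h1 := hU2 I hU (h (b + 1) u v) (E F (b + 1) u u 1) 1
  rw [E_mul, if_pos rfl, mul_one, one_mul, E_mul, if_neg huv, add_zero, add_comm 1 b] at h1
  exact full_of_mem I hU (by omega) h1

include hU in
lemma full_mono {b c : ℕ} (hbc : b ≤ c) (h : Full I b) : Full I c := by
  induction hbc with
  | refl => exact h
  | step _ ih => exact full_succ I hU ih

include hU in
theorem classify (hs : Function.Surjective (algebraMap Φ F)) : I = ⊥ ∨ ∃ a, I = Lvl Φ F a := by
  by_cases hne : ∃ b, Full I b
  · right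
    refine ⟨Nat.find hne, ?_⟩
    have h1 := Nat.find_spec hne
    apply le_antisymm
    · intro T hT
      obtain ⟨n, hn⟩ := T.2
      refine ⟨n, ?_⟩
      rw [expand hn]
      refine Submodule.sum_mem _ fun i _ => ?_
      by_cases hc : coef n i.1 i.2.1 i.2.2 T.1 = 0
      · rw [hc, zero_smul]; exact Submodule.zero_mem _
      · have h2 := full_of_coef I hU hs i.1 i.2.1 i.2.2 hn hT hc
        exact Submodule.smul_mem _ _ (P_mem _ _ (Nat.find_min' hne h2))
    · rintro ⟨T, hT'⟩ ⟨n, hn⟩
      change T ∈ S F n _ at hn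
      have key : ∀ T ∈ S F n (Nat.find hne), ∃ h : T ∈ Sub F, (⟨T, h⟩ : Alg F) ∈ I := by
        intro T hT
        induction hT using Submodule.span_induction with
        | mem x hx =>
          obtain ⟨p, q, a, ha, rfl⟩ := hx
          exact ⟨_, full_mono I hU ha h1 n p q⟩
        | zero => exact ⟨Subalgebra.zero_mem _, I.zero_mem⟩
        | add y z _ _ h1 h2 =>
          obtain ⟨a1, b1⟩ := h1
          obtain ⟨a2, b2⟩ := h2
          exact ⟨Subalgebra.add_mem _ a1 a2, I.add_mem b1 b2⟩
        | smul c y _ h =>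
          obtain ⟨a1, b1⟩ := h
          exact ⟨Subalgebra.smul_mem _ a1 c, fsmul_mem hs I c b1⟩
      exact (key T hn).2
  · left
    rw [eq_bot_iff]
    intro T hT
    obtain ⟨n, hn⟩ := T.2
    have : T.1 = 0 := by
      rw [expand hn]
      refine Finset.sum_eq_zero fun i _ => ?_
      by_cases hc : coef n i.1 i.2.1 i.2.2 T.1 = 0
      · rw [hc, zero_smul]
      · exact absurd ⟨_, full_of_coef I hU hs i.1 i.2.1 i.2.2 hn hT hc⟩ hne
    exact Subtype.ext this

end Classify

lemma Lvl_anti {a b : ℕ} (h : a ≤ b) : Lvl Φ F b ≤ Lvl Φ F a := by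
  rintro T ⟨n, hn⟩
  exact ⟨n, S_anti h hn⟩

lemma Lvl_mul {a b : ℕ} {x y : Alg F} (hx : x ∈ Lvl Φ F a) (hy : y ∈ Lvl Φ F b) :
    x * y ∈ Lvl Φ F (a + b) := by
  obtain ⟨n, hn⟩ := hx
  obtain ⟨m, hm⟩ := hy
  exact ⟨max n m, S_mul (S_le (le_max_left n m) a hn) (S_le (le_max_right n m) b hm)⟩

lemma Lvl_top (x : Alg F) : x ∈ Lvl Φ F 0 := x.2

lemma Lvl_smul {a : ℕ} (c : F) {x : Alg F} (hx : x ∈ Lvl Φ F a) : c • x ∈ Lvl Φ F a := by
  obtain ⟨n, hn⟩ := hx
  exact ⟨n, Submodule.smul_mem _ c hn⟩

lemma E_ne_zero (n : ℕ) : E F n (fun _ => 0) (fun _ => 0) n ≠ 0 := by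
  intro h
  have h2 := coef_P (F := F) n (fun _ => 0) (fun _ => 0) (fun _ => 0) (fun _ => 0)
    ⟨n, by omega⟩ n
  rw [if_pos ⟨rfl, rfl, rfl⟩] at h2
  have h3 : P F n (fun _ => 0) (fun _ => 0) n = 0 := congrArg Subtype.val h
  rw [h3, map_zero] at h2
  exact zero_ne_one h2

section Main

variable {B : Type*} [NonUnitalNonAssocRing B] [Module Φ B] [IsScalarTower Φ B B]
  [SMulCommClass Φ B B] (hs : Function.Surjective (algebraMap Φ F)) (e : B ≃ₗ[Φ] Alg F)
  (lam mu : F) (hlm : lam + mu = 1)
  (hmul : ∀ x y : B, e (x * y) = lam • (e x * e y) + mu • (e y * e x))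
  (hU : ∀ I : Submodule Φ B, IsTwoSided Φ I → ∀ x ∈ I, ∀ a : B, e.symm (e a * e x * e a) ∈ I)

include hs hU in
lemma ideal_classify (I : Submodule Φ B) (hI : IsTwoSided Φ I) :
    I = ⊥ ∨ ∃ a, I = (Lvl Φ F a).comap e.toLinearMap := by
  have h1 : ∀ x ∈ I.map e.toLinearMap, ∀ a : Alg F, a * x * a ∈ I.map e.toLinearMap := by
    rintro _ ⟨x, hx, rfl⟩ a
    refine ⟨e.symm (a * e x * a), ?_, by simp⟩
    have := hU I hI x hx (e.symm a)
    simpa using this
  have h0 : I = (I.map e.toLinearMap).comap e.toLinearMap :=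
    (Submodule.comap_map_eq_of_injective e.injective I).symm
  rcases classify (I.map e.toLinearMap) h1 hs with h | ⟨a, h⟩
  · left
    rw [h0, h]
    rw [eq_bot_iff]
    intro x hx
    have : e x = 0 := hx
    simpa using this
  · right
    exact ⟨a, by rw [← h]; exact h0⟩

include hs hU in
lemma weaklyNoetherian : WeaklyNoetherian Φ B := by
  intro I hI hmono
  have hm : Monotone I := monotone_nat_of_le_succ hmono
  by_cases h : ∃ a, ∃ k, I k = (Lvl Φ F a).comap e.toLinearMap
  · obtain ⟨k, hk⟩ := Nat.find_spec h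
    refine ⟨k, fun n hn => ?_⟩
    apply le_antisymm _ (hm hn)
    rcases ideal_classify hs e hU (I n) (hI n) with h1 | ⟨a, ha⟩
    · rw [h1]; exact bot_le
    · rw [ha, hk]
      exact Submodule.comap_mono (Lvl_anti (Nat.find_min' h ⟨n, ha⟩))
  · refine ⟨0, fun n _ => ?_⟩
    have h1 : ∀ n, I n = ⊥ := by
      intro n
      rcases ideal_classify hs e hU (I n) (hI n) with h1 | ⟨a, ha⟩
      · exact h1
      · exact absurd ⟨a, n, ha⟩ h
    rw [h1, h1]

include hmul in
lemma twoSided_L (a : ℕ) : IsTwoSided Φ ((Lvl Φ F a).comap e.toLinearMap) := by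
  intro x hx b
  have hx' : e x ∈ Lvl Φ F a := hx
  have h1 : e b * e x ∈ Lvl Φ F a := by
    have := Lvl_mul (Lvl_top (Φ := Φ) (e b)) hx'
    rwa [zero_add] at this
  have h2 : e x * e b ∈ Lvl Φ F a := by
    have := Lvl_mul hx' (Lvl_top (Φ := Φ) (e b))
    rwa [add_zero] at this
  constructor
  · change e (b * x) ∈ Lvl Φ F a
    rw [hmul]
    exact Submodule.add_mem _ (Lvl_smul _ h1) (Lvl_smul _ h2)
  · change e (x * b) ∈ Lvl Φ F a
    rw [hmul]
    exact Submodule.add_mem _ (Lvl_smul _ h2) (Lvl_smul _ h1)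

include hmul in
lemma prod_mem {n : ℕ} {T : Set B} (hT : ∀ x ∈ T, (e x).1 ∈ S F n 1) {N : ℕ} {z : B}
    (hz : IsProd T N z) : (e z).1 ∈ S F n N := by
  induction hz with
  | elem hx => exact hT _ hx
  | @mul a b x y _ _ ihx ihy =>
    rw [hmul]
    refine Submodule.add_mem _ (Submodule.smul_mem _ _ (S_mul ihx ihy)) ?_
    rw [add_comm a b]
    exact Submodule.smul_mem _ _ (S_mul ihy ihx)

include hmul in
lemma adjoin_mem {n : ℕ} {T : Set B} (hT : ∀ x ∈ T, (e x).1 ∈ S F n 1) :
    ∀ x ∈ NonUnitalAlgebra.adjoin Φ T, (e x).1 ∈ S F n 1 := by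
  intro x hx
  induction hx using NonUnitalAlgebra.adjoin_induction with
  | mem x hx => exact hT x hx
  | zero => rw [map_zero]; exact Submodule.zero_mem _
  | add x y _ _ h1 h2 => rw [map_add]; exact Submodule.add_mem _ h1 h2
  | mul x y _ _ h1 h2 =>
    rw [hmul]
    have h3 := S_anti (F := F) (n := n) (show 1 ≤ 1 + 1 by omega) (S_mul h1 h2)
    have h4 := S_anti (F := F) (n := n) (show 1 ≤ 1 + 1 by omega) (S_mul h2 h1)
    exact Submodule.add_mem _ (Submodule.smul_mem _ _ h3) (Submodule.smul_mem _ _ h4)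
  | smul c x _ h =>
    rw [map_smul]
    have : (c • e x).1 = (algebraMap Φ F c) • (e x).1 := by
      rw [algebraMap_smul]; rfl
    rw [this]
    exact Submodule.smul_mem _ _ h

lemma common_stage (s : Finset B) (h : ∀ x ∈ s, x ∈ (Lvl Φ F 1).comap e.toLinearMap) :
    ∃ n, ∀ x ∈ s, (e x).1 ∈ S F n 1 := by
  induction s using Finset.induction_on with
  | empty => exact ⟨0, fun x hx => by simp at hx⟩
  | insert a s _ ih =>
    obtain ⟨n, hn⟩ := ih (fun x hx => h x (Finset.mem_insert_of_mem hx))
    obtain ⟨m, hm⟩ := h a (Finset.mem_insert_self a s)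
    refine ⟨max n m, fun x hx => ?_⟩
    rcases Finset.mem_insert.1 hx with rfl | hx
    · exact S_le (le_max_right n m) 1 hm
    · exact S_le (le_max_left n m) 1 (hn x hx)

include hmul in
lemma locallyNilpotent_L : LocallyNilpotent Φ ((Lvl Φ F 1).comap e.toLinearMap) := by
  intro s h
  obtain ⟨n, hn⟩ := common_stage e s h
  refine ⟨n + 2, by omega, fun z hz => ?_⟩
  have h1 := prod_mem e lam mu hmul (adjoin_mem e lam mu hmul hn) hz
  rw [S_eq_bot le_rfl] at h1
  have h2 : e z = 0 := Subtype.ext h1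
  simpa using h2

include hlm hmul in
lemma pow_mem (n k : ℕ) :
    IsProd ((Lvl Φ F 1).comap e.toLinearMap : Set B) (k + 1)
      (e.symm (E F n (fun _ => 0) (fun _ => 0) (k + 1))) := by
  have h1 : IsProd ((Lvl Φ F 1).comap e.toLinearMap : Set B) 1
      (e.symm (E F n (fun _ => 0) (fun _ => 0) 1)) := by
    refine IsProd.elem ?_
    change e (e.symm _) ∈ Lvl Φ F 1
    rw [LinearEquiv.apply_symm_apply]
    exact ⟨n, P_mem _ _ le_rfl⟩
  induction k with
  | zero => exact h1
  | succ k ih =>
    have h2 := IsProd.mul ih h1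
    have h3 : e.symm (E F n (fun _ => 0) (fun _ => 0) (k + 1)) *
        e.symm (E F n (fun _ => 0) (fun _ => 0) 1) =
        e.symm (E F n (fun _ => 0) (fun _ => 0) (k + 1 + 1)) := by
      apply e.injective
      rw [hmul]
      simp only [LinearEquiv.apply_symm_apply]
      rw [E_mul, E_mul, if_pos rfl, if_pos rfl, add_comm 1 (k + 1), ← add_smul, hlm, one_smul]
    rwa [h3] at h2

include hlm hmul in
lemma not_nilpotent_L : ¬ NilpotentSet ((Lvl Φ F 1).comap e.toLinearMap : Set B) := by
  rintro ⟨n, hn, h⟩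
  obtain ⟨k, rfl⟩ := Nat.exists_eq_add_of_le' hn
  have h1 := h _ (pow_mem e lam mu hlm hmul (k + 1) k)
  have h2 : E F (k + 1) (fun _ => 0) (fun _ => 0) (k + 1) = 0 := by
    apply e.symm.injective
    rw [h1, map_zero]
  exact E_ne_zero _ h2

include hlm hmul in
lemma one_not_nilpotent (T : Set B) (h1 : e.symm 1 ∈ T) : ¬ NilpotentSet T := by
  rintro ⟨n, hn, h⟩
  have h2 : ∀ k, IsProd T (k + 1) (e.symm 1) := by
    intro k
    induction k with
    | zero => exact IsProd.elem h1
    | succ k ih =>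
      have h3 := IsProd.mul ih (IsProd.elem h1)
      have h4 : e.symm 1 * e.symm 1 = e.symm 1 := by
        apply e.injective
        rw [hmul]
        simp only [LinearEquiv.apply_symm_apply, mul_one]
        rw [← add_smul, hlm, one_smul]
      rwa [h4] at h3
  obtain ⟨k, rfl⟩ := Nat.exists_eq_add_of_le' hn
  have h3 := h _ (h2 k)
  have h4 : (1 : Alg F) = 0 := by
    apply e.symm.injective
    rw [h3, map_zero]
  have h5 : E F 0 (fun _ => 0) (fun _ => 0) 0 = 0 := by
    rw [← mul_one (E F 0 (fun _ => 0) (fun _ => 0) 0), h4, mul_zero]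
  exact E_ne_zero _ h5

include hs hlm hmul hU in
theorem main : IsCounterexample Φ B := by
  refine ⟨weaklyNoetherian hs e hU, (Lvl Φ F 1).comap e.toLinearMap,
    ⟨twoSided_L e lam mu hmul 1, locallyNilpotent_L e lam mu hmul, ?_⟩,
    not_nilpotent_L e lam mu hlm hmul⟩
  intro I hI hL
  rcases ideal_classify hs e hU I hI with h | ⟨a, h⟩
  · rw [h]; exact bot_le
  · rcases Nat.eq_zero_or_pos a with rfl | ha
    · exfalso
      have h1 : e.symm 1 ∈ I := by
        rw [h]
        exact Lvl_top (Φ := Φ) _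
      refine one_not_nilpotent e lam mu hlm hmul _ ?_ (hL {e.symm 1} ?_)
      · exact NonUnitalAlgebra.subset_adjoin Φ (by simp)
      · intro x hx
        rw [Finset.mem_singleton.1 hx]
        exact h1
    · rw [h]
      exact Submodule.comap_mono (Lvl_anti ha)

end Main

theorem counterexample_assoc (hs : Function.Surjective (algebraMap Φ F)) :
    IsCounterexample Φ (Alg F) := by
  refine main (F := F) hs (LinearEquiv.refl Φ (Alg F)) 1 0 (by simp) ?_ ?_
  · intro x y; simp
  · intro I hI x hx a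
    exact (hI _ (hI x hx a).1 a).2

/-! ### The Jordan algebra with product (xy + yx)/2 -/

/-- the additive group of the algebra, to be equipped with the product (xy+yx)/2 -/
def JAlg (F : Type*) [Field F] : Type _ := Alg F

instance : AddCommGroup (JAlg F) := inferInstanceAs (AddCommGroup (Alg F))
instance : Module Φ (JAlg F) := inferInstanceAs (Module Φ (Alg F))

/-- the identity map to the associative algebra -/
def toAlg (Φ F : Type*) [Field F] [CommRing Φ] [Algebra Φ F] : JAlg F ≃ₗ[Φ] Alg F :=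
  LinearEquiv.refl Φ (Alg F)

noncomputable instance : Mul (JAlg F) :=
  ⟨fun x y => (toAlg F F).symm ((2 : F)⁻¹ • (toAlg F F x * toAlg F F y + toAlg F F y * toAlg F F x))⟩

lemma J_mul (x y : JAlg F) : x * y =
    (toAlg F F).symm ((2 : F)⁻¹ • (toAlg F F x * toAlg F F y + toAlg F F y * toAlg F F x)) := rfl

noncomputable instance : NonUnitalNonAssocRing (JAlg F) :=
  { (inferInstance : AddCommGroup (JAlg F)), (inferInstance : Mul (JAlg F)) with
    left_distrib := fun a b c => by
      simp only [J_mul, map_add, mul_add, add_mul]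
      rw [← map_add, ← smul_add]
      congr 2
      abel
    right_distrib := fun a b c => by
      simp only [J_mul, map_add, mul_add, add_mul]
      rw [← map_add, ← smul_add]
      congr 2
      abel
    zero_mul := fun a => by simp [J_mul]
    mul_zero := fun a => by simp [J_mul] }

lemma smul_mul_Alg (c : Φ) (x y : Alg F) : (c • x) * y = c • (x * y) := smul_mul_assoc c x y

instance : IsScalarTower Φ (JAlg F) (JAlg F) := ⟨fun c x y => by
  change (2 : F)⁻¹ • ((c • (toAlg Φ F x)) * (toAlg Φ F y) + (toAlg Φ F y) * (c • (toAlg Φ F x))) =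
    c • ((2 : F)⁻¹ • (toAlg Φ F x * toAlg Φ F y + toAlg Φ F y * toAlg Φ F x))
  rw [smul_mul_assoc, mul_smul_comm, ← smul_add, smul_comm]⟩

instance : SMulCommClass Φ (JAlg F) (JAlg F) := ⟨fun c x y => by
  change c • ((2 : F)⁻¹ • (toAlg Φ F x * toAlg Φ F y + toAlg Φ F y * toAlg Φ F x)) =
    (2 : F)⁻¹ • ((toAlg Φ F x) * (c • (toAlg Φ F y)) + (c • (toAlg Φ F y)) * (toAlg Φ F x))
  rw [smul_mul_assoc, mul_smul_comm, ← smul_add, smul_comm]⟩

lemma J_comm (x y : JAlg F) : x * y = y * x := by
  rw [J_mul, J_mul, add_comm]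

lemma J_jordan (x y : JAlg F) : ((x * x) * y) * x = (x * x) * (y * x) := by
  apply (toAlg F F).injective
  simp only [J_mul, LinearEquiv.apply_symm_apply]
  generalize toAlg F F x = a
  generalize toAlg F F y = b
  generalize (2 : F)⁻¹ = c
  simp only [smul_mul_assoc, mul_smul_comm, ← smul_add]
  congr 3
  simp only [mul_add, add_mul, mul_assoc]
  abel

theorem counterexample_jordan (hs : Function.Surjective (algebraMap Φ F)) (h2 : (2 : F) ≠ 0) :
    IsCounterexample Φ (JAlg F) := by
  refine main (F := F) hs (toAlg Φ F) (2 : F)⁻¹ (2 : F)⁻¹ ?_ ?_ ?_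
  · rw [← two_mul, mul_inv_cancel₀ h2]
  · intro x y
    rw [← smul_add]
    rfl
  · intro I hI x hx a
    have h3 : (toAlg Φ F).symm (toAlg Φ F a * toAlg Φ F x * toAlg Φ F a) =
        a * (a * x) + a * (a * x) - (a * a) * x := by
      apply (toAlg F F).injective
      rw [map_sub, map_add]
      simp only [J_mul, LinearEquiv.apply_symm_apply]
      change toAlg F F a * toAlg F F x * toAlg F F a = _
      generalize toAlg F F a = a
      generalize toAlg F F x = b
      have h4 : ∀ z : Alg F, z = (2 : F)⁻¹ • (z + z) := by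
        intro z
        rw [← two_smul F z, smul_smul, inv_mul_cancel₀ h2, one_smul]
      simp only [smul_mul_assoc, mul_smul_comm, ← smul_add, ← smul_sub]
      have h5 : a * b * a = (2 : F)⁻¹ • ((2 : F)⁻¹ •
          (a * b * a + a * b * a + (a * b * a + a * b * a))) := by
        rw [← h4, ← h4]
      rw [h5]
      congr 2
      simp only [mul_add, add_mul, mul_assoc]
      abel
    rw [h3]
    exact sub_mem (add_mem (hI _ (hI x hx a).1 a).1 (hI _ (hI x hx a).1 a).1) (hI x hx (a * a)).1

/-! ### Products with a nilpotent algebra -/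

section Product

lemma isProd_pred {B : Type*} [NonUnitalNonAssocRing B] {T : Set B}
    (hT : ∀ x ∈ T, ∀ y ∈ T, x * y ∈ T) {n : ℕ} {z : B} (hz : IsProd T n z) :
    2 ≤ n → IsProd T (n - 1) z := by
  have hpos : ∀ {n : ℕ} {z : B}, IsProd T n z → 1 ≤ n := by
    intro n z hz
    induction hz with
    | elem _ => exact le_rfl
    | mul _ _ h1 _ => omega
  have hone : ∀ {n : ℕ} {z : B}, IsProd T n z → n = 1 → z ∈ T := by
    intro n z hz
    induction hz with
    | elem h => exact fun _ => h
    | mul h1 h2 _ _ => intro h; have := hpos h1; have := hpos h2; omega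
  induction hz with
  | elem _ => intro h; omega
  | @mul a b x y hx hy ihx ihy =>
    intro _
    by_cases ha : 2 ≤ a
    · have h1 := IsProd.mul (ihx ha) hy
      rwa [show a - 1 + b = a + b - 1 by omega] at h1
    · by_cases hb : 2 ≤ b
      · have h1 := IsProd.mul hx (ihy hb)
        rwa [show a + (b - 1) = a + b - 1 by omega] at h1
      · have h3 := hpos hx
        have h4 := hpos hy
        have ha1 : a = 1 := by omega
        have hb1 : b = 1 := by omega
        have h1 := IsProd.elem (hT x (hone hx ha1) y (hone hy hb1))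
        rwa [show a + b - 1 = 1 by omega]

lemma isProd_sub {B : Type*} [NonUnitalNonAssocRing B] {T : Set B}
    (hT : ∀ x ∈ T, ∀ y ∈ T, x * y ∈ T) {n : ℕ} (hn : 1 ≤ n) (k : ℕ) {z : B}
    (hz : IsProd T (n + k) z) : IsProd T n z := by
  induction k with
  | zero => exact hz
  | succ k ih => exact ih (isProd_pred hT hz (by omega))

variable {A N : Type*} [Ring A] [Algebra Φ A] [NonUnitalNonAssocRing N] [Module Φ N]
  [IsScalarTower Φ N N] [SMulCommClass Φ N N]

theorem prod_counterexample (hA : IsCounterexample Φ A)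
    (hN : ∃ k, 0 < k ∧ ∀ z : N, IsProd Set.univ k z → z = 0)
    (hacc : ∀ s : ℕ → Submodule Φ N, (∀ n, s n ≤ s (n + 1)) → ∃ M, ∀ n, M ≤ n → s n = s M) :
    IsCounterexample Φ (A × N) := by
  obtain ⟨hw, L, ⟨hL1, hL2, hL3⟩, hL4⟩ := hA
  obtain ⟨k, hk, hN⟩ := hN
  have split : ∀ I : Submodule Φ (A × N), IsTwoSided Φ I → ∀ a n, (a, n) ∈ I →
      (a, (0 : N)) ∈ I ∧ ((0 : A), n) ∈ I := by
    intro I hI a n h
    have h1 : (a, (0 : N)) ∈ I := by
      have := (hI _ h ((1 : A), (0 : N))).1
      simpa using this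
    refine ⟨h1, ?_⟩
    have := sub_mem h h1
    simpa using this
  have mapIdeal : ∀ I : Submodule Φ (A × N), IsTwoSided Φ I →
      IsTwoSided Φ (I.comap (LinearMap.inl Φ A N)) := by
    intro I hI x hx a
    have hx' : (x, (0 : N)) ∈ I := hx
    have h1 := hI _ hx' (a, 0)
    constructor
    · change (a * x, (0 : N)) ∈ I
      simpa using h1.1
    · change (x * a, (0 : N)) ∈ I
      simpa using h1.2
  have eqI : ∀ I : Submodule Φ (A × N), IsTwoSided Φ I →
      I = (I.comap (LinearMap.inl Φ A N)).prod (I.comap (LinearMap.inr Φ A N)) := by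
    intro I hI
    ext ⟨a, n⟩
    constructor
    · intro h; exact split I hI a n h
    · rintro ⟨h1, h2⟩
      have h1' : (a, (0 : N)) ∈ I := h1
      have h2' : ((0 : A), n) ∈ I := h2
      have := add_mem h1' h2'
      simpa using this
  refine ⟨?_, L.prod ⊤, ⟨?_, ?_, ?_⟩, ?_⟩
  · intro I hI hmono
    obtain ⟨M1, h1⟩ := hw (fun n => (I n).comap (LinearMap.inl Φ A N))
      (fun n => mapIdeal _ (hI n)) (fun n => Submodule.comap_mono (hmono n))
    obtain ⟨M2, h2⟩ := hacc (fun n => (I n).comap (LinearMap.inr Φ A N))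
      (fun n => Submodule.comap_mono (hmono n))
    refine ⟨max M1 M2, fun n hn => ?_⟩
    rw [eqI (I n) (hI n), eqI (I (max M1 M2)) (hI _)]
    have e1 := h1 n (le_trans (le_max_left _ _) hn)
    have e2 := h2 n (le_trans (le_max_right _ _) hn)
    have e3 := h1 _ (le_max_left M1 M2)
    have e4 := h2 _ (le_max_right M1 M2)
    beta_reduce at e1 e2 e3 e4
    rw [e1, e2, e3, e4]
  · rintro ⟨x, n⟩ ⟨hx, _⟩ ⟨a, m⟩
    exact ⟨⟨(hL1 x hx a).1, trivial⟩, ⟨(hL1 x hx a).2, trivial⟩⟩
  · intro s hs
    classical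
    obtain ⟨m, hm, h⟩ := hL2 (s.image Prod.fst) (by
      intro x hx
      obtain ⟨y, hy, rfl⟩ := Finset.mem_image.1 hx
      exact (hs y hy).1)
    refine ⟨m + k, by omega, fun z hz => ?_⟩
    have hadj : ∀ x ∈ NonUnitalAlgebra.adjoin Φ (s : Set (A × N)),
        x.1 ∈ NonUnitalAlgebra.adjoin Φ ((s.image Prod.fst : Finset A) : Set A) := by
      intro x hx
      induction hx using NonUnitalAlgebra.adjoin_induction with
      | mem x hx =>
        refine NonUnitalAlgebra.subset_adjoin Φ ?_
        rw [Finset.coe_image]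
        exact ⟨x, hx, rfl⟩
      | zero => exact zero_mem _
      | add x y _ _ h1 h2 => exact add_mem h1 h2
      | mul x y _ _ h1 h2 => exact mul_mem h1 h2
      | smul c x _ h => exact SMulMemClass.smul_mem c h
    have key : ∀ {j : ℕ} {z : A × N}, IsProd
        (NonUnitalAlgebra.adjoin Φ (s : Set (A × N)) : Set (A × N)) j z →
        IsProd (NonUnitalAlgebra.adjoin Φ ((s.image Prod.fst : Finset A) : Set A) : Set A) j z.1 ∧
        IsProd (Set.univ : Set N) j z.2 := by
      intro j z hz
      induction hz with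
      | elem hx => exact ⟨IsProd.elem (hadj _ hx), IsProd.elem trivial⟩
      | mul _ _ h1 h2 => exact ⟨IsProd.mul h1.1 h2.1, IsProd.mul h1.2 h2.2⟩
    obtain ⟨h1, h2⟩ := key hz
    have h3 := h _ (isProd_sub (fun x hx y hy => mul_mem hx hy) hm k h1)
    rw [add_comm] at h2
    have h4 := hN _ (isProd_sub (fun x _ y _ => Set.mem_univ _) hk m h2)
    exact Prod.ext h3 h4
  · intro I hI hIl
    have h1 : I.comap (LinearMap.inl Φ A N) ≤ L := by
      refine hL3 _ (mapIdeal I hI) ?_
      intro s hs
      classical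
      obtain ⟨m, hm, h⟩ := hIl (s.image (fun x => (x, (0 : N)))) (by
        intro x hx
        obtain ⟨y, hy, rfl⟩ := Finset.mem_image.1 hx
        exact hs y hy)
      refine ⟨m, hm, fun z hz => ?_⟩
      have hadj : ∀ x ∈ NonUnitalAlgebra.adjoin Φ (s : Set A),
          (x, (0 : N)) ∈ NonUnitalAlgebra.adjoin Φ
            ((s.image (fun x => (x, (0 : N))) : Finset (A × N)) : Set (A × N)) := by
        intro x hx
        induction hx using NonUnitalAlgebra.adjoin_induction with
        | mem x hx =>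
          refine NonUnitalAlgebra.subset_adjoin Φ ?_
          rw [Finset.coe_image]
          exact ⟨x, hx, rfl⟩
        | zero => exact zero_mem _
        | add x y _ _ h1 h2 =>
          have := add_mem h1 h2
          simpa using this
        | mul x y _ _ h1 h2 =>
          have := mul_mem h1 h2
          simpa using this
        | smul c x _ h =>
          have := SMulMemClass.smul_mem c h
          simpa using this
      have key : ∀ {j : ℕ} {z : A}, IsProd (NonUnitalAlgebra.adjoin Φ (s : Set A) : Set A) j z →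
          IsProd (NonUnitalAlgebra.adjoin Φ
            ((s.image (fun x => (x, (0 : N))) : Finset (A × N)) : Set (A × N)) : Set (A × N)) j
              (z, (0 : N)) := by
        intro j z hz
        induction hz with
        | elem hx => exact IsProd.elem (hadj _ hx)
        | mul _ _ h1 h2 =>
          have := IsProd.mul h1 h2
          simpa using this
      have := h _ (key hz)
      exact congrArg Prod.fst this
    rintro ⟨a, n⟩ h
    exact ⟨h1 (split I hI a n h).1, trivial⟩
  · rintro ⟨m, hm, h⟩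
    apply hL4
    refine ⟨m, hm, fun z hz => ?_⟩
    have key : ∀ {j : ℕ} {z : A}, IsProd (L : Set A) j z →
        IsProd ((L.prod ⊤ : Submodule Φ (A × N)) : Set (A × N)) j (z, (0 : N)) := by
      intro j z hz
      induction hz with
      | elem hx => exact IsProd.elem ⟨hx, trivial⟩
      | mul _ _ h1 h2 =>
        have := IsProd.mul h1 h2
        simpa using this
    exact congrArg Prod.fst (h _ (key hz))

end Product

/-! ### A seven-dimensional nilpotent alternative algebra which is not associative -/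

/-- the space F³ × F³ × F, with the product (a,b,c)(a',b',c') = (0, a × a', -(a·b')) -/
def Seven (F : Type*) : Type _ := (Fin 3 → F) × (Fin 3 → F) × F

instance : AddCommGroup (Seven F) := inferInstanceAs (AddCommGroup ((Fin 3 → F) × (Fin 3 → F) × F))
instance : Module Φ (Seven F) := inferInstanceAs (Module Φ ((Fin 3 → F) × (Fin 3 → F) × F))
instance : IsScalarTower Φ F (Seven F) :=
  inferInstanceAs (IsScalarTower Φ F ((Fin 3 → F) × (Fin 3 → F) × F))

instance : Mul (Seven F) :=
  ⟨fun x y => ((0 : Fin 3 → F), crossProduct x.1 y.1, -(dotProduct x.1 y.2.1))⟩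

lemma seven_mul (x y : Seven F) :
    x * y = ((0 : Fin 3 → F), crossProduct x.1 y.1, -(dotProduct x.1 y.2.1)) := rfl

instance : NonUnitalNonAssocRing (Seven F) :=
  { (inferInstance : AddCommGroup (Seven F)), (inferInstance : Mul (Seven F)) with
    left_distrib := fun a b c => by
      change ((0 : Fin 3 → F), crossProduct a.1 (b.1 + c.1), -(dotProduct a.1 (b.2.1 + c.2.1))) =
        ((0 : Fin 3 → F) + 0, crossProduct a.1 b.1 + crossProduct a.1 c.1,
          -(dotProduct a.1 b.2.1) + -(dotProduct a.1 c.2.1))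
      rw [map_add, dotProduct_add, add_zero, neg_add]
    right_distrib := fun a b c => by
      change ((0 : Fin 3 → F), crossProduct (a.1 + b.1) c.1, -(dotProduct (a.1 + b.1) c.2.1)) =
        ((0 : Fin 3 → F) + 0, crossProduct a.1 c.1 + crossProduct b.1 c.1,
          -(dotProduct a.1 c.2.1) + -(dotProduct b.1 c.2.1))
      rw [map_add, add_dotProduct, add_zero, neg_add]
      rfl
    zero_mul := fun a => by
      change ((0 : Fin 3 → F), crossProduct (0 : Fin 3 → F) a.1,
        -(dotProduct (0 : Fin 3 → F) a.2.1)) = ((0 : Fin 3 → F), (0 : Fin 3 → F), (0 : F))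
      simp
    mul_zero := fun a => by
      change ((0 : Fin 3 → F), crossProduct a.1 (0 : Fin 3 → F),
        -(dotProduct a.1 (0 : Fin 3 → F))) = ((0 : Fin 3 → F), (0 : Fin 3 → F), (0 : F))
      simp }

instance : IsScalarTower Φ (Seven F) (Seven F) := ⟨fun c x y => by
  change ((0 : Fin 3 → F), crossProduct (c • x.1) y.1, -(dotProduct (c • x.1) y.2.1)) =
    (c • (0 : Fin 3 → F), c • crossProduct x.1 y.1, c • -(dotProduct x.1 y.2.1))
  rw [smul_zero, smul_dotProduct, smul_neg, ← algebraMap_smul F c x.1, map_smul,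
    LinearMap.smul_apply, algebraMap_smul]⟩

instance : SMulCommClass Φ (Seven F) (Seven F) := ⟨fun c x y => by
  change (c • (0 : Fin 3 → F), c • crossProduct x.1 y.1, c • -(dotProduct x.1 y.2.1)) =
    ((0 : Fin 3 → F), crossProduct x.1 (c • y.1), -(dotProduct x.1 (c • y.2.1)))
  rw [smul_zero, dotProduct_smul, smul_neg, ← algebraMap_smul F c y.1, map_smul, algebraMap_smul]⟩

lemma seven_left (x y : Seven F) : (x * x) * y = x * (x * y) := by
  change ((0 : Fin 3 → F), crossProduct (0 : Fin 3 → F) y.1, -(dotProduct (0 : Fin 3 → F) y.2.1)) =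
    ((0 : Fin 3 → F), crossProduct x.1 (0 : Fin 3 → F), -(dotProduct x.1 (crossProduct x.1 y.1)))
  rw [dot_self_cross]
  simp

lemma seven_right (x y : Seven F) : (y * x) * x = y * (x * x) := by
  change ((0 : Fin 3 → F), crossProduct (0 : Fin 3 → F) x.1, -(dotProduct (0 : Fin 3 → F) x.2.1)) =
    ((0 : Fin 3 → F), crossProduct y.1 (0 : Fin 3 → F), -(dotProduct y.1 (crossProduct x.1 x.1)))
  rw [cross_self]
  simp

lemma seven_not_assoc : ∃ x y z : Seven F, (x * y) * z ≠ x * (y * z) := by
  refine ⟨(![1, 0, 0], 0, 0), (![0, 1, 0], 0, 0), (![0, 0, 1], 0, 0), ?_⟩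
  intro h
  have h2 := congrArg (fun x : Seven F => x.2.2) h
  change -(dotProduct (0 : Fin 3 → F) _) =
    -(dotProduct (![1, 0, 0] : Fin 3 → F) (crossProduct ![0, 1, 0] ![0, 0, 1])) at h2
  rw [cross_apply] at h2
  simp [dotProduct, Fin.sum_univ_three] at h2

lemma seven_prod {k : ℕ} {z : Seven F} (hz : IsProd Set.univ k z) :
    (2 ≤ k → z.1 = 0) ∧ (3 ≤ k → z.2.1 = 0) ∧ (4 ≤ k → z.2.2 = 0) := by
  have hpos : ∀ {n : ℕ} {z : Seven F}, IsProd Set.univ n z → 1 ≤ n := by
    intro n z hz
    induction hz with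
    | elem _ => exact le_rfl
    | mul _ _ h1 _ => omega
  induction hz with
  | elem _ => exact ⟨fun h => by omega, fun h => by omega, fun h => by omega⟩
  | @mul m n x y hx hy ihx ihy =>
    have h1 := hpos hx
    have h2 := hpos hy
    refine ⟨fun _ => rfl, fun h => ?_, fun h => ?_⟩
    · change crossProduct x.1 y.1 = 0
      by_cases hm : 2 ≤ m
      · rw [ihx.1 hm]; simp
      · rw [ihy.1 (by omega)]; simp
    · change -(dotProduct x.1 y.2.1) = 0
      by_cases hm : 2 ≤ m
      · rw [ihx.1 hm]; simp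
      · rw [ihy.2.1 (by omega)]; simp

lemma seven_acc (hs : Function.Surjective (algebraMap Φ F)) (s : ℕ → Submodule Φ (Seven F))
    (h : ∀ n, s n ≤ s (n + 1)) : ∃ M, ∀ n, M ≤ n → s n = s M := by
  let t : ℕ → Submodule F (Seven F) := fun n =>
    { carrier := s n
      add_mem' := fun ha hb => (s n).add_mem ha hb
      zero_mem' := (s n).zero_mem
      smul_mem' := fun c x hx => by
        obtain ⟨φ, rfl⟩ := hs c
        have : algebraMap Φ F φ • x = φ • x := algebraMap_smul F φ x
        rw [this]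
        exact (s n).smul_mem φ hx }
  have : IsNoetherian F (Seven F) :=
    inferInstanceAs (IsNoetherian F ((Fin 3 → F) × (Fin 3 → F) × F))
  obtain ⟨M, hM⟩ := monotone_stabilizes_iff_noetherian.2 this
    ⟨t, monotone_nat_of_le_succ (fun n x hx => h n hx)⟩
  refine ⟨M, fun n hn => ?_⟩
  have h2 := hM n hn
  ext x
  have h3 : x ∈ t M ↔ x ∈ t n := by
    change x ∈ (⟨t, monotone_nat_of_le_succ (fun n x hx => h n hx)⟩ : ℕ →o Submodule F (Seven F)) M ↔ _
    rw [h2]
    rfl
  exact h3.symm

theorem counterexample_alternative (hs : Function.Surjective (algebraMap Φ F)) :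
    IsCounterexample Φ (Alg F × Seven F) := by
  refine prod_counterexample (counterexample_assoc hs) ⟨4, by norm_num, fun z hz => ?_⟩
    (seven_acc hs)
  have h := seven_prod hz
  exact Prod.ext (h.1 (by norm_num)) (Prod.ext (h.2.1 (by norm_num)) (h.2.2 (by norm_num)))

end Operators

/-- Over every nonzero commutative ring Φ (in particular over every field) there are
(a) an associative algebra, (b) an alternative algebra which is not associative, and,
(c) if 2 is invertible in Φ, a Jordan algebra,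
each with the ascending chain condition on two-sided ideals and with a locally nilpotent
radical that is not nilpotent. -/
theorem result (Φ : Type u) [CommRing Φ] [Nontrivial Φ] :
    (∃ (A : Type u) (_ : Ring A) (_ : Algebra Φ A), IsCounterexample Φ A) ∧
    (∃ (A : Type u) (_ : NonUnitalNonAssocRing A) (_ : Module Φ A)
      (_ : IsScalarTower Φ A A) (_ : SMulCommClass Φ A A),
      (∀ x y : A, (x * x) * y = x * (x * y)) ∧ (∀ x y : A, (y * x) * x = y * (x * x)) ∧
      (∃ x y z : A, (x * y) * z ≠ x * (y * z)) ∧ IsCounterexample Φ A) ∧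
    (IsUnit (2 : Φ) →
      ∃ (A : Type u) (_ : NonUnitalNonAssocRing A) (_ : Module Φ A)
        (_ : IsScalarTower Φ A A) (_ : SMulCommClass Φ A A),
        (∀ x y : A, x * y = y * x) ∧ (∀ x y : A, ((x * x) * y) * x = (x * x) * (y * x)) ∧
        IsCounterexample Φ A) := by
  obtain ⟨m, hm⟩ := Ideal.exists_maximal Φ
  let _ : Field (Φ ⧸ m) := Ideal.Quotient.field m
  have hs : Function.Surjective (algebraMap Φ (Φ ⧸ m)) := Ideal.Quotient.mk_surjective
  refine ⟨⟨Alg (Φ ⧸ m), inferInstance, inferInstance, counterexample_assoc hs⟩,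
    ⟨Alg (Φ ⧸ m) × Seven (Φ ⧸ m), inferInstance, inferInstance, inferInstance, inferInstance,
      ?_, ?_, ?_, counterexample_alternative hs⟩, fun h2 => ?_⟩
  · rintro ⟨a, x⟩ ⟨b, y⟩
    exact Prod.ext (mul_assoc a a b) (seven_left x y)
  · rintro ⟨a, x⟩ ⟨b, y⟩
    exact Prod.ext (mul_assoc b a a) (seven_right x y)
  · obtain ⟨x, y, z, h⟩ := seven_not_assoc (F := Φ ⧸ m)
    exact ⟨(0, x), (0, y), (0, z), fun h2 => h (congrArg Prod.snd h2)⟩
  · have h3 : (2 : Φ ⧸ m) ≠ 0 := by
      have h4 := (h2.map (algebraMap Φ (Φ ⧸ m))).ne_zero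
      rwa [map_ofNat] at h4
    exact ⟨JAlg (Φ ⧸ m), inferInstance, inferInstance, inferInstance, inferInstance,
      J_comm, J_jordan, counterexample_jordan hs h3⟩

end Pool.Agent.Results.MP_768068_al.NonNilpotentRadical
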